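import Pool.Agent.Lib.MP_5d7bff_an.AllP

/-!
A renorming of one block and a superposition of scales for which the modular is linear on a
long range.
-/

namespace Pool.Agent.Lib.MP_5d7bff_an.S1

open Finset

section Norm

variable {G : Type} [Fintype G] [DecidableEq G]

theorem InD_zero (L : ℕ) : InD L (0 : Fn G) :=
  ⟨fun _ _ => le_rfl, fun _ _ => zero_le_one, fun a => by simp [Ex_const]⟩

theorem en_zero (L : ℕ) : en L (0 : Fn G) = 0 := by simp [en, Ex_const]

theorem pair_zero_left (L : ℕ) (x : Fn G) : pair L 0 x = 0 := by simp [pair, Ex_const]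

/-- Admissible families of test functions on one block. -/
def Ad (G : Type) [Fintype G] [DecidableEq G] (L K : ℕ) : Type :=
  {g : ℕ → Fn G // (∀ j, InD L (g j)) ∧ ∑ j ∈ range (K + 1), 2 ^ j * en L (g j) ≤ 1}

instance (L K : ℕ) : Nonempty (Ad G L K) := ⟨⟨0, fun _ => InD_zero L, by simp [en_zero]⟩⟩

/-- Total pairing with a family. -/
noncomputable def PQ {L K : ℕ} (a : Ad G L K) (x : Fn G) : ℝ :=
  ∑ j ∈ range (K + 1), pair L (a.1 j) x

theorem PQ_le {L K : ℕ} (a : Ad G L K) {x : Fn G} {D : ℝ} (h : ∀ g, InD L g → pair L g x ≤ D) :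
    PQ a x ≤ (K + 1) * D := by
  refine (sum_le_sum fun j _ => h _ (a.2.1 j)).trans (le_of_eq ?_)
  simp

theorem PQ_bdd (L K : ℕ) (x : Fn G) : BddAbove (Set.range fun a : Ad G L K => PQ a x) :=
  ⟨_, Set.forall_mem_range.mpr fun a => PQ_le a fun _ hg => pair_le_top hg x⟩

/-- The new norm of a block. -/
noncomputable def nb (L K : ℕ) : Seminorm ℝ (Fn G) :=
  Seminorm.ofSMulLE (fun x => ⨆ a : Ad G L K, PQ a x) (by simp [PQ, pair_zero])
    (fun x y => ciSup_le fun a => le_trans (by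
      rw [PQ, PQ, PQ, ← sum_add_distrib]
      exact sum_le_sum fun j _ => pair_add_le (a.2.1 j) _ _)
      (add_le_add (le_ciSup (PQ_bdd L K x) a) (le_ciSup (PQ_bdd L K y) a)))
    fun c x => ciSup_le fun a => le_trans (le_of_eq (by
      rw [PQ, PQ, mul_sum]
      exact sum_congr rfl fun k _ => pair_smul_right _ _))
      (mul_le_mul_of_nonneg_left (le_ciSup (PQ_bdd L K x) a) (norm_nonneg c))

theorem PQ_le_nb {L K : ℕ} (a : Ad G L K) (x : Fn G) : PQ a x ≤ nb L K x :=
  le_ciSup (PQ_bdd L K x) a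

theorem nb_le {L K : ℕ} {x : Fn G} {D : ℝ} (h : ∀ g, InD L g → pair L g x ≤ D) :
    nb L K x ≤ (K + 1) * D := ciSup_le fun a => PQ_le a h

theorem pair_le_nb {L : ℕ} (K : ℕ) (x : Fn G) {g : Fn G} (h1 : InD L g) (h2 : en L g ≤ 1) :
    pair L g x ≤ nb L K x := by
  have e1 : ∑ j ∈ range (K + 1), 2 ^ j * en L (if j = 0 then g else 0) = en L g := by
    rw [sum_eq_single_of_mem 0 (by simp)]
    · simp
    · intro j _ hj
      simp [hj, en_zero]
  refine le_trans (le_of_eq ?_) (PQ_le_nb ⟨fun j => if j = 0 then g else 0, fun j => ?_,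
    e1.trans_le h2⟩ x)
  · change _ = ∑ j ∈ range (K + 1), pair L (if j = 0 then g else 0) x
    rw [sum_eq_single_of_mem 0 (by simp)]
    · simp
    · intro j _ hj
      simp [hj, pair_zero_left]
  · dsimp only
    split_ifs
    exacts [h1, InD_zero L]

theorem nb_smul (L K : ℕ) {c : ℝ} (hc : 0 ≤ c) (x : Fn G) : nb L K (c • x) = c * nb L K x := by
  rw [map_smul_eq_mul, Real.norm_of_nonneg hc]

theorem nb_half_le (L K j : ℕ) (x : Fn G) : nb L K (((1 / 2 : ℝ) ^ j) • x) ≤ nb L K x := by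
  rw [nb_smul L K (by positivity)]
  exact mul_le_of_le_one_left (apply_nonneg _ _) (pp_le_one j)

end Norm

theorem psi_lt_one (m K : ℕ) (z : Fn (GG m)) (h : nb (LL m) K z ≤ 1 / 400) :
    psi (LL m) (RR m) z < 1 := by
  have h1 : NN (DFinsupp.single m z) ≤ nb (LL m) K z := by
    refine ciSup_le fun a => ?_
    unfold PP
    by_cases hm : m ∈ a.1.1
    · rw [sum_eq_single_of_mem m hm]
      · rw [DFinsupp.single_eq_same]
        exact pair_le_nb K z (a.2.1 m hm) ((single_le_sum (f := fun k => en (LL k) (a.1.2 k))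
          (fun k _ => en_nonneg _ _) hm).trans a.2.2)
      · intro k _ hk
        rw [DFinsupp.single_eq_of_ne hk, pair_zero]
    · rw [sum_eq_zero]
      · exact apply_nonneg _ _
      · intro k hk
        have hkm : k ≠ m := fun e => hm (e ▸ hk)
        rw [DFinsupp.single_eq_of_ne hkm, pair_zero]
  have h2 := psi_le_NN (DFinsupp.single m z) {m} (h1.trans h)
  rw [sum_singleton, DFinsupp.single_eq_same] at h2
  linarith

theorem win_upper (m K : ℕ) (y : Fn (GG m)) (h : nb (LL m) K y ≤ 1 / 400) :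
    ∑ j ∈ range (K + 1), 2 ^ j * (1 - chiB (LL m) (RR m) (((1 / 2 : ℝ) ^ j) • y)) ≤
      98 * nb (LL m) K y := by
  choose g hg using fun j : ℕ => exists_test _ _ _
    (psi_lt_one m K (((1 / 2 : ℝ) ^ j) • y) ((nb_half_le _ _ j y).trans h))
  set W := ∑ j ∈ range (K + 1), 2 ^ j * psi (LL m) (RR m) (((1 / 2 : ℝ) ^ j) • y) with hW
  have h1 : ∑ j ∈ range (K + 1), 2 ^ j * en (LL m) (g j) ≤ W :=
    sum_le_sum fun j _ => mul_le_mul_of_nonneg_left (hg j).2.1 (by positivity)
  have h2 : W ≤ 98 * ∑ j ∈ range (K + 1), pair (LL m) (g j) y := by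
    rw [mul_sum]
    refine sum_le_sum fun j _ => (mul_le_mul_of_nonneg_left (hg j).2.2 (by positivity)).trans
      (le_of_eq ?_)
    rw [pair_smul_right, abs_of_pos (by positivity)]
    have := two_pow_mul_pp j
    unfold pp at this
    calc _ = 98 * ((2 ^ j * (1 / 2) ^ j) * pair (LL m) (g j) y) := by ring
      _ = _ := by rw [this, one_mul]
  refine le_trans (sum_le_sum fun j _ => mul_le_mul_of_nonneg_left (one_sub_chiB_le _ _ _)
    (by positivity)) ?_
  rw [← hW]
  rcases le_or_gt W 1 with h3 | h3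
  · exact h2.trans (mul_le_mul_of_nonneg_left
      (PQ_le_nb ⟨g, fun j => (hg j).1, h1.trans h3⟩ y) (by norm_num))
  · exfalso
    have hW0 : 0 < W := by linarith
    have hl0 : 0 ≤ W⁻¹ := by positivity
    have hl1 : W⁻¹ ≤ 1 := inv_le_one_of_one_le₀ h3.le
    have hl2 : W⁻¹ * W = 1 := inv_mul_cancel₀ hW0.ne'
    have h4 := PQ_le_nb (G := GG m) (L := LL m) (K := K) ⟨fun j r i => W⁻¹ * g j r i, fun j =>
      InD_smul (B := 1) (hg j).1.1 (hg j).1.2.1 (hg j).1.2.2 hl0 hl1 (by nlinarith), by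
        simp only [en_smul, mul_left_comm _ (W⁻¹ ^ 2), ← mul_sum]
        have := mul_le_mul_of_nonneg_left h1 (sq_nonneg W⁻¹)
        nlinarith⟩ y
    simp only [PQ, pair_smul, ← mul_sum] at h4
    have h5 := mul_le_mul_of_nonneg_left h2 hl0
    nlinarith

theorem win_lower (m K : ℕ) (y : Fn (GG m)) (h : nb (LL m) K y ≤ 1) (h' : 1 / 2 ≤ nb (LL m) K y) :
    1 / 10 ^ 8 ≤
      ∑ j ∈ range (K + 1), 2 ^ j * (1 - chiB (LL m) (RR m) (((1 / 2 : ℝ) ^ j) • y)) := by
  obtain ⟨a, ha⟩ := exists_lt_of_lt_ciSup (show 1 / 4 < nb (LL m) K y by linarith)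
  have h1 : ∀ j ∈ range (K + 1), (1 / 600 * pair (LL m) (a.1 j) y -
      (1 / 600) ^ 2 * (2 ^ j * en (LL m) (a.1 j))) / 9600 ≤
      2 ^ j * (1 - chiB (LL m) (RR m) (((1 / 2 : ℝ) ^ j) • y)) := by
    intro j hj
    have hg := a.2.1 j
    have he : en (LL m) (a.1 j) ≤ 1 := by
      have h2 := (single_le_sum (f := fun j => 2 ^ j * en (LL m) (a.1 j))
        (fun j _ => mul_nonneg (by positivity) (en_nonneg _ _)) hj).trans a.2.2
      have h3 : (1 : ℝ) ≤ 2 ^ j := one_le_pow₀ one_le_two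
      nlinarith [en_nonneg (LL m) (a.1 j)]
    have hz := (nb_half_le (LL m) K j y).trans h
    have hp := (pair_le_nb K (((1 / 2 : ℝ) ^ j) • y) hg he).trans hz
    have h2 := chiB_le_exp (LL m) (RR m) (fun r i => 1 / 600 * a.1 j r i) (((1 / 2 : ℝ) ^ j) • y)
      (InD_smul (B := 1) hg.1 hg.2.1 hg.2.2 (by norm_num) (by norm_num) (by norm_num))
      (by rw [pair_smul]; linarith) fun r hr i =>
        (abs_le_pair hr _ i).trans (mul_le_of_le_one_right (by positivity)
          ((pair_le_nb K _ (lev_InD _ r) (lev_en _ r)).trans hz))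
    rw [pair_smul, en_smul] at h2
    set u := (1 / 600 * pair (LL m) (a.1 j) (((1 / 2 : ℝ) ^ j) • y) -
      (1 / 600) ^ 2 * en (LL m) (a.1 j)) / 4800 with hu
    have h3 : u / 2 ≤ 1 - chiB (LL m) (RR m) (((1 / 2 : ℝ) ^ j) • y) := by
      rcases le_total u 0 with h4 | h4
      · linarith [chiB_le_one (LL m) (RR m) (((1 / 2 : ℝ) ^ j) • y)]
      · have h5 := exp_neg_le_quad h4
        have h6 : u ≤ 1 / 2 := by
          have := en_nonneg (LL m) (a.1 j)
          rw [hu]
          linarith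
        nlinarith
    refine le_trans (le_of_eq ?_) (mul_le_mul_of_nonneg_left h3 (by positivity))
    rw [hu, pair_smul_right, abs_of_pos (by positivity)]
    have := two_pow_mul_pp j
    unfold pp at this
    calc _ = (1 / 600 * ((2 ^ j * (1 / 2) ^ j) * pair (LL m) (a.1 j) y) -
          (1 / 600) ^ 2 * (2 ^ j * en (LL m) (a.1 j))) / 9600 := by rw [this, one_mul]
      _ = _ := by ring
  refine le_trans ?_ (sum_le_sum h1)
  rw [← sum_div, sum_sub_distrib, ← mul_sum, ← mul_sum]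
  have := a.2.2
  unfold PQ at ha
  linarith

end Pool.Agent.Lib.MP_5d7bff_an.S1
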