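import Pool.Agent.Lib.MP_5d7bff_an.AllP

/-!
Embedding a sum of blocks with long linear range.
-/

namespace Pool.Agent.Lib.MP_5d7bff_an.S1

open Finset MeasureTheory Filter Topology UniformSpace

theorem exists_T_gen (E : ℕ → Type) [∀ k, AddCommGroup (E k)] [∀ k, Module ℝ (E k)]
    (φ : ∀ k, E k → ℝ) (hφ : ∀ k, Rep (φ k)) (hz : ∀ k, φ k 0 = 1) :
    ∃ T : (Π₀ k, E k) →ₗ[ℝ] ℝ → ℝ, (∀ x, Measurable (T x)) ∧
      ∀ (x : Π₀ k, E k) (s : Finset ℕ), (∀ k ∉ s, x k = 0) →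
        ∫ t, Real.cos (T x t) ∂mu = ∏ k ∈ s, φ k (x k) := by
  classical
  choose Ω hΩ W f h0 h1 using hφ
  obtain ⟨Z, hZ, hI⟩ := exists_indep Ω W h0 fun k => by
    have := h1 k 0
    simp only [hz, map_zero, Complex.ofReal_zero, zero_mul, Complex.exp_zero, mul_one] at this
    exact_mod_cast this.symm
  let T : (Π₀ k, E k) →ₗ[ℝ] ℝ → ℝ := DFinsupp.lsum ℝ fun k => LinearMap.pi fun t => f k (Z k t)
  have hT : ∀ (x : Π₀ k, E k) (s : Finset ℕ), (∀ k ∉ s, x k = 0) →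
      T x = fun t => ∑ k ∈ s, f k (Z k t) (x k) := by
    intro x s hs
    ext t
    simp only [T, DFinsupp.lsum_apply_apply, DFinsupp.sumAddHom_apply, DFinsupp.sum,
      Finset.sum_apply]
    refine sum_subset (fun k hk => ?_) fun k _ hk => ?_
    · by_contra h
      exact DFinsupp.mem_support_iff.mp hk (hs k h)
    · simp [DFinsupp.notMem_support_iff.mp hk]
  have hm : ∀ x, Measurable (T x) := fun x => by
    rw [hT x x.support fun k => DFinsupp.notMem_support_iff.mp]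
    exact x.support.measurable_fun_sum fun k _ => hZ k fun ω => f k ω (x k)
  refine ⟨T, hm, fun x s hs => ?_⟩
  have h2 := hI s fun k ω => Complex.exp (f k ω (x k) * Complex.I)
  simp only [← h1, ← Complex.exp_sum, ← sum_mul, ← Complex.ofReal_sum,
    ← Complex.ofReal_prod] at h2
  have h3 : Integrable (fun t => Complex.exp (T x t * Complex.I)) mu :=
    Integrable.of_bound (by have := hm x; fun_prop) 1
      (ae_of_all _ fun t => (Complex.norm_exp_ofReal_mul_I _).le)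
  have h4 := integral_re h3
  rw [hT x s hs] at h4 ⊢
  rw [h2] at h4
  simpa only [RCLike.re_to_complex, Complex.exp_ofReal_mul_I_re, Complex.ofReal_re] using h4

variable (E : ℕ → Type) [∀ k, NormedAddCommGroup (E k)] [∀ k, NormedSpace ℝ (E k)]

/-- Finitely supported families inside the sum. -/
noncomputable def inc : (Π₀ k, E k) →ₗ[ℝ] lp E 1 :=
  DFinsupp.lsum ℝ fun k => lp.lsingle (𝕜 := ℝ) 1 k

theorem inc_eq (x : Π₀ k, E k) (s : Finset ℕ) (hs : ∀ k ∉ s, x k = 0) :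
    inc E x = ∑ k ∈ s, lp.single 1 k (x k) := by
  classical
  simp only [inc, DFinsupp.lsum_apply_apply, DFinsupp.sumAddHom_apply, DFinsupp.sum]
  refine sum_subset (fun k hk => ?_) fun k _ hk => ?_
  · by_contra h
    exact DFinsupp.mem_support_iff.mp hk (hs k h)
  · simp [DFinsupp.notMem_support_iff.mp hk]

theorem norm_inc (x : Π₀ k, E k) (s : Finset ℕ) (hs : ∀ k ∉ s, x k = 0) :
    ‖inc E x‖ = ∑ k ∈ s, ‖x k‖ := by
  have := lp.norm_sum_single (E := E) (p := 1) (by simp) (fun k => x k) s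
  rw [inc_eq E x s hs]
  simpa using this

theorem dense_inc : DenseRange (inc E) := by
  classical
  intro f
  refine mem_closure_of_tendsto (lp.hasSum_single (p := 1) (by simp) f)
    (Eventually.of_forall fun s => ⟨∑ k ∈ s, DFinsupp.single k (f k), ?_⟩)
  rw [map_sum]
  refine sum_congr rfl fun k _ => ?_
  simp [inc]

theorem sum_embed [∀ k, CompleteSpace (E k)] (φ : ∀ k, E k → ℝ) (hφ : ∀ k, Rep (φ k))
    (hz : ∀ k, φ k 0 = 1) (h0 : ∀ k x, 0 ≤ φ k x) (h1 : ∀ k x, φ k x ≤ 1)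
    (hU : ∀ k x, ‖x‖ < 1 / 400 → 1 - φ k x ≤ 98 * ‖x‖) {c : ℝ} (hc : 0 < c)
    (hL : ∀ k x, ‖x‖ ≤ 1 → pp (k + 2) ≤ ‖x‖ → φ k x ≤ Real.exp (-(c * ‖x‖)))
    (p : ℝ) (hp : 0 < p) (hp1 : p < 1) :
    ∃ (T : lp E 1 →ₗ[ℝ] Lp ℝ (ENNReal.ofReal p) mu) (a b : ℝ), 0 < a ∧ a ≤ b ∧
      ∀ x, a * ‖x‖ ≤ ‖T x‖ ∧ ‖T x‖ ≤ b * ‖x‖ := by
  classical
  obtain ⟨T, hm, hT⟩ := exists_T_gen E φ hφ hz
  have hi1 : ∀ x, Integrable (fun t => Real.cos (T x t)) mu := fun x =>
    Integrable.of_bound (by have := hm x; fun_prop) 1 (ae_of_all _ fun t => Real.abs_cos_le_one _)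
  have hI : ∀ x, Ph (T x) = ENNReal.ofReal (1 - ∫ t, Real.cos (T x t) ∂mu) := fun x => by
    have hi3 : Integrable (fun t => 1 - Real.cos (T x t)) mu := (integrable_const _).sub (hi1 x)
    rw [Ph, ← ofReal_integral_eq_lintegral_ofReal hi3
      (ae_of_all _ fun t => sub_nonneg.mpr (Real.cos_le_one _)),
      integral_sub (integrable_const _) (hi1 x)]
    simp
  have hs : ∀ x : Π₀ k, E k, ∀ k ∉ x.support, x k = 0 := fun x k =>
    DFinsupp.notMem_support_iff.mp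
  have hU' : ∀ x, ‖inc E x‖ < 1 / 400 → Ph (T x) ≤ ENNReal.ofReal (98 * ‖inc E x‖) := by
    intro x hx
    rw [norm_inc E x _ (hs x)] at hx ⊢
    rw [hI, hT _ _ (hs x), mul_sum]
    exact ENNReal.ofReal_le_ofReal ((one_sub_prod_le _ _ (fun k _ => h0 k _)
      fun k _ => h1 k _).trans (sum_le_sum fun k hk => hU k _
        ((single_le_sum (f := fun k => ‖x k‖) (fun _ _ => norm_nonneg _) hk).trans_lt hx)))
  have hL' : ∀ x, ‖inc E x‖ = 1 →
      ENNReal.ofReal (2 * ((1 - Real.exp (-(c / 2))) / 2)) ≤ Ph (T x) := by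
    intro x hx
    rw [norm_inc E x _ (hs x)] at hx
    rw [hI, hT _ _ (hs x)]
    refine ENNReal.ofReal_le_ofReal ?_
    have h2 : ∀ k ∈ x.support, φ k (x k) ≤ Real.exp (-(c * (‖x k‖ - pp (k + 2)))) := by
      intro k hk
      rcases le_total (pp (k + 2)) ‖x k‖ with h | h
      · refine (hL k _ ((single_le_sum (f := fun k => ‖x k‖) (fun _ _ => norm_nonneg _)
          hk).trans_eq hx) h).trans (Real.exp_le_exp.mpr ?_)
        nlinarith [pp_pos (k + 2)]
      · refine (h1 k _).trans (Real.one_le_exp ?_)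
        nlinarith
    have h3 := prod_le_prod (fun k _ => h0 k (x k)) h2
    rw [← Real.exp_sum, sum_neg_distrib, ← mul_sum, sum_sub_distrib, hx] at h3
    have h4 : ∑ k ∈ x.support, pp (k + 2) ≤ 1 / 2 := by
      have h5 := sum_pp_le 0 x.support fun _ _ => Nat.zero_le _
      have h6 : ∀ k, pp (k + 2) = 1 / 4 * pp k := fun k => by
        unfold pp
        ring
      simp only [h6, ← mul_sum]
      have h7 : pp 0 = 1 := by simp [pp]
      linarith
    have h5 : Real.exp (-(c * (1 - ∑ k ∈ x.support, pp (k + 2)))) ≤ Real.exp (-(c / 2)) :=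
      Real.exp_le_exp.mpr (by nlinarith)
    linarith
  have hc' : 0 < (1 - Real.exp (-(c / 2))) / 2 :=
    half_pos (sub_pos.mpr (Real.exp_lt_one_iff.mpr (by linarith)))
  let _ : SeminormedAddCommGroup (Π₀ k, E k) := SeminormedAddCommGroup.induced _ _ (inc E)
  let _ : NormedSpace ℝ (Π₀ k, E k) := NormedSpace.induced ℝ _ _ (inc E)
  obtain ⟨S, s1, s2, s3⟩ := extension_Ph (V := Π₀ k, E k) T hm hU' hL'
  let J := (LinearEquiv.refl ℝ (Π₀ k, E k)).extendOfIsometry (inc E)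
    (Completion.toComplₗᵢ (𝕜 := ℝ) (E := Π₀ k, E k)).toLinearMap (dense_inc E)
    Completion.denseRange_coe fun x => Completion.norm_coe x
  let S' : lp E 1 →ₗ[ℝ] ℝ → ℝ := S ∘ₗ J.toLinearEquiv.toLinearMap
  have t1 : ∀ v, AEMeasurable (S' v) mu := fun v => s1 (J v)
  obtain ⟨C, hC, h4⟩ := Dp_upper hp hp1 S' t1 fun v hv => by
    have := s2 (J v) (by rwa [J.norm_map])
    rwa [J.norm_map] at this
  exact to_Lp hp S' t1 hc' hC fun x => ⟨Dp_lower hp hp1 S'
    (fun v hv => s3 (J v) (by rwa [J.norm_map])) x, h4 x⟩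

end Pool.Agent.Lib.MP_5d7bff_an.S1
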