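import Pool.Agent.Results.MP_5d7bff_an.EllOneSum

/-!
The statement about sums implies the earlier statement about one Banach space.
-/

namespace Pool.Agent.Lib.MP_5d7bff_an.S1

open MeasureTheory

theorem every_exponent :
    ∃ (X : Type) (_ : NormedAddCommGroup X) (_ : NormedSpace ℝ X), CompleteSpace X ∧
      (∀ p : ℝ, 0 < p → p < 1 →
        ∃ (T : X →ₗ[ℝ] Lp ℝ (ENNReal.ofReal p) (volume.restrict (Set.Icc (0 : ℝ) 1)))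
          (a b : ℝ), 0 < a ∧ a ≤ b ∧ ∀ x, a * ‖x‖ ≤ ‖T x‖ ∧ ‖T x‖ ≤ b * ‖x‖) ∧
      ∀ (Ω : Type) [MeasurableSpace Ω] (ν : Measure Ω),
        ¬ ∃ (S : X →ₗ[ℝ] Lp ℝ 1 ν) (a b : ℝ), 0 < a ∧ a ≤ b ∧
          ∀ x, a * ‖x‖ ≤ ‖S x‖ ∧ ‖S x‖ ≤ b * ‖x‖ := by
  obtain ⟨E, _, _, -, h⟩ := Results.MP_5d7bff_an.EllOneSum.result
  exact ⟨lp E 1, inferInstance, inferInstance, h⟩

end Pool.Agent.Lib.MP_5d7bff_an.S1
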