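import Pool.Agent.Lib.MP_5d7bff_an.S1.Sup
import Pool.Agent.Lib.MP_5d7bff_an.S1.Gen

/-!
The finite-dimensional summands and the theorem.
-/

namespace Pool.Agent.Lib.MP_5d7bff_an.S1

open Finset MeasureTheory Filter Topology

section Block

variable (G : Type) [Fintype G] [DecidableEq G] (L K : ℕ)

/-- The carrier of a summand. -/
def Bk (G : Type) (L _K : ℕ) : Type := (Icc 1 L) → (G → Bool) → ℝ

instance (G : Type) (L K : ℕ) : AddCommGroup (Bk G L K) :=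
  inferInstanceAs (AddCommGroup ((Icc 1 L) → (G → Bool) → ℝ))

instance (G : Type) (L K : ℕ) : Module ℝ (Bk G L K) :=
  inferInstanceAs (Module ℝ ((Icc 1 L) → (G → Bool) → ℝ))

omit [DecidableEq G] in
theorem fd_Bk : FiniteDimensional ℝ (Bk G L K) :=
  inferInstanceAs (FiniteDimensional ℝ ((Icc 1 L) → (G → Bool) → ℝ))

/-- Extension by zero. -/
def ext (G : Type) (L K : ℕ) : Bk G L K →ₗ[ℝ] Fn G where
  toFun x r i := if h : r ∈ Icc 1 L then x ⟨r, h⟩ i else 0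
  map_add' x y := by
    funext r i
    simp only [Pi.add_apply]
    split_ifs
    · rfl
    · simp
  map_smul' c x := by
    funext r i
    simp only [Pi.smul_apply, RingHom.id_apply]
    split_ifs
    · rfl
    · simp

/-- Restriction. -/
def res (G : Type) (L K : ℕ) : Fn G →ₗ[ℝ] Bk G L K where
  toFun x r i := x r i
  map_add' _ _ := rfl
  map_smul' _ _ := rfl

theorem pair_ext_res (g x : Fn G) : pair L g (ext G L K (res G L K x)) = pair L g x := by
  refine sum_congr rfl fun r hr => congrArg _ (Ex_congr _ fun i => ?_)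
  change g r i * |if h : r ∈ Icc 1 L then x r i else 0| = _
  rw [dif_pos hr]

noncomputable instance : NormedAddCommGroup (Bk G L K) :=
  AddGroupNorm.toNormedAddCommGroup
    { toFun := fun x => nb L K (ext G L K x)
      map_zero' := by rw [map_zero, map_zero]
      add_le' := fun x y => by
        rw [map_add]
        exact map_add_le_add _ _ _
      neg' := fun x => by rw [map_neg, map_neg_eq_map]
      eq_zero_of_map_eq_zero' := fun x hx => by
        funext r i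
        have h1 := abs_le_pair r.2 (ext G L K x) i
        have h2 := (pair_le_nb K (ext G L K x) (lev_InD L r) (lev_en L r)).trans_eq hx
        have h3 := mul_le_mul_of_nonneg_left h2 (by positivity : (0 : ℝ) ≤ 2 ^ (L * Fintype.card G))
        have h4 : ext G L K x r i = x r i := dif_pos r.2
        rw [h4] at h1
        rw [mul_zero] at h3
        exact abs_nonpos_iff.mp (h1.trans h3) }

theorem norm_Bk (x : Bk G L K) : ‖x‖ = nb L K (ext G L K x) := rfl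

noncomputable instance : NormedSpace ℝ (Bk G L K) :=
  ⟨fun a x => by rw [norm_Bk, norm_Bk, map_smul, map_smul_eq_mul]⟩

/-- Coordinates. -/
def coord (G : Type) (L K : ℕ) : Bk G L K ≃ₗ[ℝ] (Icc 1 L × (G → Bool) → ℝ) where
  toFun x j := x j.1 j.2
  invFun y r i := y (r, i)
  map_add' _ _ := rfl
  map_smul' _ _ := rfl
  left_inv _ := rfl
  right_inv _ := rfl

theorem lattice_Bk : ∃ (ι : Type) (_ : Fintype ι) (b : Module.Basis ι ℝ (Bk G L K)),
    ∀ x y, (∀ i, |b.repr x i| ≤ |b.repr y i|) → ‖x‖ ≤ ‖y‖ := by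
  refine ⟨Icc 1 L × (G → Bool), inferInstance, Module.Basis.ofEquivFun (coord G L K),
    fun x y h => ?_⟩
  rw [norm_Bk, norm_Bk]
  refine ciSup_le fun a => le_trans (sum_le_sum fun j _ => sum_le_sum fun r hr => ?_)
    (PQ_le_nb a (ext G L K y))
  refine mul_le_mul_of_nonneg_left (Ex_mono (pp_pos r).le (pp_le_one r) fun i =>
    mul_le_mul_of_nonneg_left ?_ ((a.2.1 j).1 r i)) (by positivity)
  have h1 := h (⟨r, hr⟩, i)
  rw [Module.Basis.ofEquivFun_repr_apply, Module.Basis.ofEquivFun_repr_apply] at h1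
  have e : ∀ z : Bk G L K, ext G L K z r i = coord G L K z (⟨r, hr⟩, i) := fun z => dif_pos hr
  rw [e, e]
  exact h1

end Block

/-- The summands. -/
abbrev EE (k : ℕ) : Type := Bk (GG ((k + 7) ^ 2)) (LL ((k + 7) ^ 2)) (k + 6)

theorem complete_EE (k : ℕ) : CompleteSpace (EE k) :=
  have := fd_Bk (GG ((k + 7) ^ 2)) (LL ((k + 7) ^ 2)) (k + 6)
  FiniteDimensional.complete ℝ _

theorem embed (p : ℝ) (hp : 0 < p) (hp1 : p < 1) :
    ∃ (T : lp EE 1 →ₗ[ℝ] Lp ℝ (ENNReal.ofReal p) mu) (a b : ℝ), 0 < a ∧ a ≤ b ∧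
      ∀ x, a * ‖x‖ ≤ ‖T x‖ ∧ ‖T x‖ ≤ b * ‖x‖ := by
  have := complete_EE
  have e : ∀ k (x : EE k), nb (LL ((k + 7) ^ 2)) (k + 6) ((1 / 16 : ℝ) • ext _ _ _ x) =
      1 / 16 * ‖x‖ := fun k x => nb_smul _ _ (by norm_num) _
  refine sum_embed EE (fun k x => chiN _ (k + 6) ((1 / 16 : ℝ) • ext _ _ _ x))
    (fun k => rep_comp (rep_smul (rep_chiN _ _) (1 / 16)) (ext _ _ _))
    (fun k => by rw [map_zero, smul_zero, chiN_zero]) (fun k x => chiN_nonneg _ _ _)
    (fun k x => chiN_le_one _ _ _) (fun k x hx => ?_) (c := 1 / 10 ^ 8 * (1 / 16))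
    (by norm_num) (fun k x hx hx' => ?_) p hp hp1
  · have h1 := chiN_upper _ (k + 6) ((1 / 16 : ℝ) • ext _ _ _ x) (by
      rw [e]
      linarith [norm_nonneg x])
    rw [e] at h1
    linarith [norm_nonneg x]
  · have h1 := chiN_lower _ (k + 6) ((1 / 16 : ℝ) • ext _ _ _ x) (by
      rw [e]
      linarith) (by
      rw [e]
      have : (1 / 2 : ℝ) ^ (k + 6) = 1 / 16 * pp (k + 2) := by
        unfold pp
        ring
      linarith)
    rwa [e, ← mul_assoc] at h1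

theorem block_no_embed {Ω : Type*} [MeasurableSpace Ω] (ν : Measure Ω) (m K : ℕ) (hm : 0 < m)
    (S : Bk (GG m) (LL m) K →ₗ[ℝ] Ω → ℝ) {c C : ℝ} (hc : 0 ≤ c) (hC : 0 ≤ C)
    (h : ∀ x, Integrable (S x) ν ∧ c * ‖x‖ ≤ ∫ t, |S x t| ∂ν ∧ ∫ t, |S x t| ∂ν ≤ C * ‖x‖) :
    c * m ≤ 768 * (C * (K + 1)) := by
  have k0 : (0 : ℝ) < m := by exact_mod_cast hm
  refine no_embed_gen ν (G := GG m) (LL m) ((Icc 1 (m ^ 2)).image (3 * ·)) ?_ ?_ ?_ (by simp) k0 ?_
    (S ∘ₗ res _ _ K) (fun x => (h _).1) hc (fun x g h1 h2 => ?_) fun x hx => ?_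
  · intro r hr
    obtain ⟨j, hj, rfl⟩ := mem_image.mp hr
    rw [mem_Icc, LL] at *
    omega
  · intro r hr r' hr' hlt
    obtain ⟨j, -, rfl⟩ := mem_image.mp hr
    obtain ⟨j', -, rfl⟩ := mem_image.mp hr'
    omega
  · intro r hr
    obtain ⟨j, hj, rfl⟩ := mem_image.mp hr
    have h1 : pp (LL m) ≤ pp (3 * j) := pow_le_pow_of_le_one (by norm_num) (by norm_num)
      (Nat.mul_le_mul_left 3 (mem_Icc.mp hj).2)
    have h2 := mul_le_mul_of_nonneg_left h1 (by positivity : (0 : ℝ) ≤ 2 ^ LL m)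
    rw [two_pow_mul_pp] at h2
    simp only [Fintype.card_fin, Nat.cast_mul, Nat.cast_ofNat, Nat.cast_pow]
    linarith
  · rw [card_image_of_injective _ fun a b h => by simpa using h]
    simp
  · refine le_trans (mul_le_mul_of_nonneg_left ?_ hc) (h _).2.1
    rw [norm_Bk, ← pair_ext_res _ _ K]
    exact pair_le_nb K _ h1 h2
  · refine (h _).2.2.trans ?_
    rw [mul_assoc, norm_Bk]
    exact mul_le_mul_of_nonneg_left (nb_le fun g hg => by
      rw [pair_ext_res]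
      exact hx g hg) hC

theorem no_embed_sum (Ω : Type) [MeasurableSpace Ω] (ν : Measure Ω) :
    ¬ ∃ (S : lp EE 1 →ₗ[ℝ] Lp ℝ 1 ν) (a b : ℝ), 0 < a ∧ a ≤ b ∧
      ∀ x, a * ‖x‖ ≤ ‖S x‖ ∧ ‖S x‖ ≤ b * ‖x‖ := by
  rintro ⟨S, a, b, ha, hab, h⟩
  obtain ⟨k, hk⟩ := exists_nat_gt (768 * b / a)
  obtain ⟨S', hS'⟩ := lift_L1 ν (S ∘ₗ lp.lsingle (𝕜 := ℝ) (E := EE) 1 k)
  have h1 := block_no_embed ν ((k + 7) ^ 2) (k + 6) (by positivity) S' ha.le (ha.le.trans hab)
    fun x => by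
      have h4 := h (lp.single 1 k x)
      rw [lp.norm_single one_pos, L1.norm_eq_integral_norm] at h4
      have h5 : ∫ t, |S' x t| ∂ν = ∫ t, ‖S (lp.single 1 k x) t‖ ∂ν :=
        integral_congr_ae ((hS' x).mono fun t ht => by
          simp only [ht, Real.norm_eq_abs]
          rfl)
      rw [h5]
      exact ⟨(L1.integrable_coeFn _).congr (hS' x).symm, h4⟩
  rw [div_lt_iff₀ ha] at hk
  push_cast at h1
  have h2 : (0 : ℝ) ≤ k := Nat.cast_nonneg k
  have h3 : a * (k + 7) ≤ 768 * b :=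
    le_of_mul_le_mul_right (by nlinarith) (by positivity : (0 : ℝ) < k + 7)
  nlinarith

theorem main :
    ∃ (E : ℕ → Type) (_ : ∀ k, NormedAddCommGroup (E k)) (_ : ∀ k, NormedSpace ℝ (E k)),
      (∀ k, ∃ (ι : Type) (_ : Fintype ι) (b : Module.Basis ι ℝ (E k)),
        ∀ x y, (∀ i, |b.repr x i| ≤ |b.repr y i|) → ‖x‖ ≤ ‖y‖) ∧
      CompleteSpace (lp E 1) ∧
      (∀ p : ℝ, 0 < p → p < 1 →
        ∃ (T : lp E 1 →ₗ[ℝ] Lp ℝ (ENNReal.ofReal p) (volume.restrict (Set.Icc (0 : ℝ) 1)))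
          (a b : ℝ), 0 < a ∧ a ≤ b ∧ ∀ x, a * ‖x‖ ≤ ‖T x‖ ∧ ‖T x‖ ≤ b * ‖x‖) ∧
      ∀ (Ω : Type) [MeasurableSpace Ω] (ν : Measure Ω),
        ¬ ∃ (S : lp E 1 →ₗ[ℝ] Lp ℝ 1 ν) (a b : ℝ), 0 < a ∧ a ≤ b ∧
          ∀ x, a * ‖x‖ ≤ ‖S x‖ ∧ ‖S x‖ ≤ b * ‖x‖ :=
  have := complete_EE
  ⟨EE, inferInstance, inferInstance, fun _ => lattice_Bk _ _ _, inferInstance, embed,
    no_embed_sum⟩

end Pool.Agent.Lib.MP_5d7bff_an.S1
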