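import Pool.Agent.Lib.MP_5d7bff_an.S1.Blk

/-!
The superposition of scales.
-/

namespace Pool.Agent.Lib.MP_5d7bff_an.S1

open Finset

theorem rep_comp {E F : Type*} [AddCommGroup E] [Module ℝ E] [AddCommGroup F] [Module ℝ F]
    {φ : F → ℝ} (h : Rep φ) (l : E →ₗ[ℝ] F) : Rep fun x => φ (l x) := by
  obtain ⟨Ω, _, W, f, h0, h1⟩ := h
  exact ⟨Ω, inferInstance, W, fun ω => f ω ∘ₗ l, h0, fun x => h1 (l x)⟩

theorem win_eq (f : ℕ → ℝ) {K θ : ℕ} (h : K ≤ θ) :
    ∑ j ∈ range (K + 1), f (θ - j) = ∑ σ ∈ Icc (θ - K) θ, f σ := by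
  refine sum_nbij' (fun j => θ - j) (fun σ => θ - σ) ?_ ?_ ?_ ?_ ?_
  · intro j hj
    simp only [mem_range, mem_Icc] at *
    omega
  · intro j hj
    simp only [mem_range, mem_Icc] at *
    omega
  · intro j hj
    simp only [mem_range] at *
    omega
  · intro j hj
    simp only [mem_Icc] at *
    omega
  · intro j _
    rfl

theorem sum_union_le' (f : ℕ → ℝ) (h : ∀ σ, 0 ≤ f σ) (A B : Finset ℕ) :
    ∑ σ ∈ A ∪ B, f σ ≤ ∑ σ ∈ A, f σ + ∑ σ ∈ B, f σ := by
  rw [← sum_union_inter]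
  linarith [sum_nonneg fun σ (_ : σ ∈ A ∩ B) => h σ]

theorem amp_self (K : ℕ) : amp K K = 1 := by unfold amp; field_simp

theorem amp_sub {K θ j : ℕ} (h : j ≤ θ) : amp K (θ - j) = (1 / 2) ^ j * amp K θ := by
  obtain ⟨s, rfl⟩ := Nat.exists_eq_add_of_le' h
  unfold amp
  rw [Nat.add_sub_cancel, pow_add, one_div, inv_pow]
  field_simp

theorem amp_low {K σ : ℕ} (h : σ ≤ K) : ((2 ^ (K - σ) : ℕ) : ℝ) = (amp K σ)⁻¹ := by
  obtain ⟨s, rfl⟩ := Nat.exists_eq_add_of_le' h
  unfold amp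
  rw [Nat.add_sub_cancel, pow_add]
  push_cast
  field_simp

theorem amp_high {K σ : ℕ} (h : K ≤ σ) : 1 ≤ amp K σ := by
  unfold amp
  rw [le_div_iff₀ (by positivity), one_mul]
  exact pow_le_pow_right₀ one_le_two h

/-- The defect at one scale. -/
noncomputable def tau (m K σ : ℕ) (x : Fn (GG m)) : ℝ :=
  (amp K σ)⁻¹ * (1 - chiB (LL m) (RR m) (amp K σ • x))

/-- The factor of one scale. -/
noncomputable def fac (m K σ : ℕ) (x : Fn (GG m)) : ℝ :=
  if σ ≤ K then chiB (LL m) (RR m) (amp K σ • x) ^ 2 ^ (K - σ) else 1 - tau m K σ x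

/-- The new characteristic function of a block. -/
noncomputable def chiN (m K : ℕ) (x : Fn (GG m)) : ℝ := ∏ σ ∈ range (2 * K + 1), fac m K σ x

theorem tau_nonneg (m K σ : ℕ) (x : Fn (GG m)) : 0 ≤ tau m K σ x :=
  mul_nonneg (inv_nonneg.mpr (amp_pos K σ).le) (sub_nonneg.mpr (chiB_le_one _ _ _))

theorem tau_le (m K σ : ℕ) (x : Fn (GG m)) : tau m K σ x ≤ (amp K σ)⁻¹ :=
  mul_le_of_le_one_right (inv_nonneg.mpr (amp_pos K σ).le)
    (by linarith [chiB_nonneg (LL m) (RR m) (amp K σ • x)])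

theorem fac_bounds (m K σ : ℕ) (x : Fn (GG m)) :
    0 ≤ fac m K σ x ∧ fac m K σ x ≤ Real.exp (-tau m K σ x) ∧
      1 - fac m K σ x ≤ tau m K σ x := by
  have h0 := chiB_nonneg (LL m) (RR m) (amp K σ • x)
  unfold fac
  split_ifs with h
  · unfold tau
    rw [← amp_low h]
    set c := chiB (LL m) (RR m) (amp K σ • x)
    refine ⟨pow_nonneg h0 _, ?_, ?_⟩
    · have h1 : c ≤ Real.exp (-(1 - c)) := by linarith [Real.add_one_le_exp (-(1 - c))]
      refine (pow_le_pow_left₀ h0 h1 _).trans (le_of_eq ?_)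
      rw [← Real.exp_nat_mul, mul_neg]
    · have h1 := one_add_mul_le_pow (a := c - 1) (by linarith) (2 ^ (K - σ))
      rw [add_sub_cancel] at h1
      linarith
  · have h1 := (tau_le m K σ x).trans (inv_le_one_of_one_le₀ (amp_high (not_le.mp h).le))
    exact ⟨by linarith, by linarith [Real.add_one_le_exp (-tau m K σ x)], by linarith⟩

theorem fac_le_one (m K σ : ℕ) (x : Fn (GG m)) : fac m K σ x ≤ 1 :=
  (fac_bounds m K σ x).2.1.trans (Real.exp_le_one_iff.mpr (neg_nonpos.mpr (tau_nonneg m K σ x)))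

theorem chiN_nonneg (m K : ℕ) (x : Fn (GG m)) : 0 ≤ chiN m K x :=
  prod_nonneg fun σ _ => (fac_bounds m K σ x).1

theorem chiN_le_one (m K : ℕ) (x : Fn (GG m)) : chiN m K x ≤ 1 :=
  prod_le_one (fun σ _ => (fac_bounds m K σ x).1) fun σ _ => fac_le_one m K σ x

theorem chiN_zero (m K : ℕ) : chiN m K 0 = 1 := by
  simp [chiN, fac, tau, chiB_zero]

theorem rep_smul {E : Type*} [AddCommGroup E] [Module ℝ E] {φ : E → ℝ} (h : Rep φ) (c : ℝ) :
    Rep fun x => φ (c • x) := rep_comp h (c • LinearMap.id)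

theorem rep_mix {E : Type*} [AddCommGroup E] [Module ℝ E] {φ : E → ℝ} (h : Rep φ) {c : ℝ}
    (h0 : 0 ≤ c) (h1 : c ≤ 1) : Rep fun x => 1 - c * (1 - φ x) := by
  have h3 := (Rep.const (E := E) (sub_nonneg.mpr h1)).add ((Rep.const h0).mul h)
  have e : (fun x => 1 - c * (1 - φ x)) = fun x => 1 - c + c * φ x := by
    ext x
    ring
  rw [e]
  exact h3

theorem rep_fac (m K σ : ℕ) : Rep fun x => fac m K σ x := by
  have h1 := rep_smul (rep_chiB (G := GG m) (LL m) (RR m)) (amp K σ)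
  by_cases h : σ ≤ K
  · simp only [fac, if_pos h]
    exact h1.pow _
  · simp only [fac, if_neg h, tau]
    exact rep_mix h1 (inv_nonneg.mpr (amp_pos K σ).le)
      (inv_le_one_of_one_le₀ (amp_high (not_le.mp h).le))

theorem rep_chiN (m K : ℕ) : Rep fun x => chiN m K x := by
  unfold chiN
  exact Rep.prod _ fun σ _ => rep_fac m K σ

theorem tau_win (m : ℕ) {K θ : ℕ} (h : K ≤ θ) (x : Fn (GG m)) :
    ∑ σ ∈ Icc (θ - K) θ, tau m K σ x = (amp K θ)⁻¹ * ∑ j ∈ range (K + 1),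
      2 ^ j * (1 - chiB (LL m) (RR m) (((1 / 2 : ℝ) ^ j) • amp K θ • x)) := by
  rw [← win_eq _ h, mul_sum]
  refine sum_congr rfl fun j hj => ?_
  have hj' : j ≤ θ := by
    rw [mem_range] at hj
    omega
  unfold tau
  rw [amp_sub hj', mul_smul, mul_inv, one_div, inv_pow, inv_inv]
  ring

theorem chiN_upper (m K : ℕ) (x : Fn (GG m)) (h : nb (LL m) K x ≤ 1 / 400) :
    1 - chiN m K x ≤ 1000 * nb (LL m) K x := by
  classical
  set t := nb (LL m) K x with ht
  have ht0 : 0 ≤ t := apply_nonneg _ _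
  let P : ℕ → Prop := fun σ => amp K σ * t ≤ 1 / 400
  have hK : P K := by simpa [P, amp_self] using h
  set θ := Nat.findGreatest P (2 * K) with hθ
  have h1 : K ≤ θ := Nat.le_findGreatest (by omega) hK
  have h2 : P θ := Nat.findGreatest_spec (by omega : K ≤ 2 * K) hK
  have hw : ∀ σ, K ≤ σ → P σ → ∑ s ∈ Icc (σ - K) σ, tau m K s x ≤ 98 * t := by
    intro σ hσ hP
    have h3 := win_upper m K (amp K σ • x) (by rw [nb_smul _ _ (amp_pos K σ).le]; exact hP)
    rw [nb_smul _ _ (amp_pos K σ).le] at h3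
    rw [tau_win m hσ, inv_mul_le_iff₀ (amp_pos K σ)]
    linarith
  have h3 : ∑ s ∈ Ioc θ (2 * K), tau m K s x ≤ 800 * t := by
    rcases le_or_gt (2 * K) θ with h4 | h4
    · rw [Ioc_eq_empty_of_le h4, sum_empty]
      positivity
    · have h5 : ¬ P (θ + 1) := Nat.findGreatest_is_greatest (by omega) h4
      have h6 : ∀ s, (amp K s)⁻¹ = 2 ^ K * pp s := fun s => by
        unfold amp pp
        rw [inv_div, one_div, inv_pow, div_eq_mul_inv]
      have h7 := sum_pp_le (θ + 1) (Ioc θ (2 * K)) fun r hr => (mem_Ioc.mp hr).1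
      have h8 : (amp K (θ + 1))⁻¹ ≤ 400 * t := by
        rw [inv_le_iff_one_le_mul₀ (amp_pos K _)]
        have := not_le.mp h5
        linarith
      refine (sum_le_sum fun s _ => tau_le m K s x).trans ?_
      simp only [h6, ← mul_sum] at h8 ⊢
      have := mul_le_mul_of_nonneg_left h7 (by positivity : (0 : ℝ) ≤ 2 ^ K)
      linarith
  have h4 : range (2 * K + 1) ⊆ Icc (K - K) K ∪ (Icc (θ - K) θ ∪ Ioc θ (2 * K)) := by
    intro s hs
    have := Nat.findGreatest_le (P := P) (2 * K)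
    simp only [mem_range, mem_union, mem_Icc, mem_Ioc] at *
    omega
  refine (one_sub_prod_le _ _ (fun σ _ => (fac_bounds m K σ x).1)
    fun σ _ => fac_le_one m K σ x).trans ((sum_le_sum fun σ _ => (fac_bounds m K σ x).2.2).trans
      ((sum_le_sum_of_subset_of_nonneg h4 fun σ _ _ => tau_nonneg m K σ x).trans ?_))
  have h5 := sum_union_le' _ (fun σ => tau_nonneg m K σ x) (Icc (K - K) K)
    (Icc (θ - K) θ ∪ Ioc θ (2 * K))
  have h6 := sum_union_le' _ (fun σ => tau_nonneg m K σ x) (Icc (θ - K) θ) (Ioc θ (2 * K))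
  linarith [hw K le_rfl hK, hw θ h1 h2]

theorem chiN_lower (m K : ℕ) (x : Fn (GG m)) (h : nb (LL m) K x ≤ 1)
    (h' : (1 / 2) ^ K ≤ nb (LL m) K x) :
    chiN m K x ≤ Real.exp (-(1 / 10 ^ 8 * nb (LL m) K x)) := by
  classical
  set t := nb (LL m) K x with ht
  let P : ℕ → Prop := fun σ => amp K σ * t ≤ 1
  have hK : P K := by simpa [P, amp_self] using h
  set θ := Nat.findGreatest P (2 * K) with hθ
  have h1 : K ≤ θ := Nat.le_findGreatest (by omega) hK
  have h2 : P θ := Nat.findGreatest_spec (by omega : K ≤ 2 * K) hK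
  have h3 : θ ≤ 2 * K := Nat.findGreatest_le _
  have h4 : 1 / 2 ≤ amp K θ * t := by
    rcases h3.eq_or_lt with h4 | h4
    · rw [h4, two_mul, amp_add]
      have h5 := two_pow_mul_pp K
      have h6 := mul_le_mul_of_nonneg_left h' (by positivity : (0 : ℝ) ≤ 2 ^ K)
      unfold pp at h5
      linarith
    · have h5 : ¬ P (θ + 1) := Nat.findGreatest_is_greatest (by omega) h4
      have h6 := not_le.mp h5
      rw [amp_succ] at h6
      linarith
  have h5 := win_lower m K (amp K θ • x) (by rw [nb_smul _ _ (amp_pos K θ).le]; exact h2)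
    (by rw [nb_smul _ _ (amp_pos K θ).le]; exact h4)
  refine (prod_le_prod (fun σ _ => (fac_bounds m K σ x).1)
    fun σ _ => (fac_bounds m K σ x).2.1).trans ?_
  rw [← Real.exp_sum, Real.exp_le_exp, sum_neg_distrib, neg_le_neg_iff]
  refine le_trans ?_ (sum_le_sum_of_subset_of_nonneg (s := Icc (θ - K) θ) (fun s hs => by
    simp only [mem_range, mem_Icc] at *
    omega) fun σ _ _ => tau_nonneg m K σ x)
  rw [tau_win m h1, le_inv_mul_iff₀ (amp_pos K θ)]
  have h6 : amp K θ * t ≤ 1 := h2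
  linarith

end Pool.Agent.Lib.MP_5d7bff_an.S1
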